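import Mathlib

set_option autoImplicit false

open MeasureTheory ProbabilityTheory Filter
open scoped BigOperators ENNReal

namespace Pool.Agent.Results.MP_37ff18_mp.ThinGraphs

/-- Ground states of the Edwards-Anderson model on the graph with vertices `V` and edges `E`, the
edge `e` joining `src e` and `tgt e`: every change of finitely many spins costs energy. -/
def Ground {V E : Type} (src tgt : E → V) (J : E → ℝ) (σ : V → ℝ) : Prop :=
  (∀ x, σ x = 1 ∨ σ x = -1) ∧ ∀ ρ : V → ℝ, (∀ x, ρ x = 1 ∨ ρ x = -1) → ρ ≠ σ →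
    {x | ρ x ≠ σ x}.Finite →
    0 < ∑ᶠ e : E, J e * (σ (src e) * σ (tgt e) - ρ (src e) * ρ (tgt e))

/-- The edges with an endpoint strictly between the levels `a` and `b`. -/
def Touch {V E : Type} (src tgt : E → V) (lev : V → ℕ) (a b : ℕ) : Set E :=
  {e | (a < lev (src e) ∧ lev (src e) < b) ∨ (a < lev (tgt e) ∧ lev (tgt e) < b)}

/-- The edges with exactly one endpoint strictly between the levels `a` and `b`. -/
def Border {V E : Type} (src tgt : E → V) (lev : V → ℕ) (a b : ℕ) : Set E :=
  {e | ¬ ((a < lev (src e) ∧ lev (src e) < b) ↔ (a < lev (tgt e) ∧ lev (tgt e) < b))}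

section det

variable {V E : Type} {src tgt : E → V} {lev : V → ℕ}

theorem sq_one {x : ℝ} (h : x = 1 ∨ x = -1) : x * x = 1 := by
  rcases h with rfl | rfl <;> norm_num

open Classical in
theorem few (J : E → ℝ) (σ : V → ℝ) (hσ : Ground src tgt J σ) (a b : ℕ) (c : ℝ) (hc : 0 < c)
    (hfV : {x | a < lev x ∧ lev x < b}.Finite) (hfE : (Touch src tgt lev a b).Finite)
    (hJ : ∀ e ∈ Touch src tgt lev a b, c ≤ J e ∧ J e ≤ 2 * c) :
    {e | (a < lev (src e) ∧ lev (src e) < b) ∧ (a < lev (tgt e) ∧ lev (tgt e) < b) ∧
      σ (src e) ≠ σ (tgt e)}.ncard ≤ 2 * (Border src tgt lev a b).ncard := by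
  set M : V → Prop := fun x => a < lev x ∧ lev x < b with hM
  set U : Set E := {e | M (src e) ∧ M (tgt e) ∧ σ (src e) ≠ σ (tgt e)} with hU
  set B : Set E := Border src tgt lev a b with hB
  have hUT : U ⊆ Touch src tgt lev a b := fun e he => Or.inl he.1
  have hBT : B ⊆ Touch src tgt lev a b := by
    intro e he
    by_contra h
    simp only [Touch, Set.mem_setOf_eq, not_or] at h
    exact he ⟨fun h1 => absurd h1 h.1, fun h1 => absurd h1 h.2⟩
  have hUf : U.Finite := hfE.subset hUT
  have hBf : B.Finite := hfE.subset hBT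
  by_cases hW : ∃ x, M x ∧ σ x ≠ 1
  · set ρ : V → ℝ := fun x => if M x then 1 else σ x with hρ
    have hρ1 : ∀ x, ρ x = 1 ∨ ρ x = -1 := by
      intro x
      by_cases h : M x
      · left; simp [hρ, h]
      · simp only [hρ, h, if_false]; exact hσ.1 x
    have hne : ρ ≠ σ := by
      obtain ⟨x, hx, hx1⟩ := hW
      intro h
      have := congrFun h x
      simp only [hρ, hx, if_true] at this
      exact hx1 this.symm
    have hfin : {x | ρ x ≠ σ x}.Finite := by
      refine hfV.subset ?_
      intro x hx
      by_contra h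
      apply hx
      have h' : ¬ M x := h
      simp [hρ, h']
    have hpos := hσ.2 ρ hρ1 hne hfin
    set A : E → ℝ := fun e => J e * (σ (src e) * σ (tgt e) - ρ (src e) * ρ (tgt e)) with hA
    have hsupp : Function.support A ⊆ (hfE.toFinset : Set E) := by
      intro e he
      by_contra h
      rw [Set.Finite.coe_toFinset] at h
      simp only [Touch, Set.mem_setOf_eq, not_or] at h
      apply he
      have h1 : ¬ M (src e) := h.1
      have h2 : ¬ M (tgt e) := h.2
      simp [hA, hρ, h1, h2]
    rw [finsum_eq_sum_of_support_subset A hsupp] at hpos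
    have hbound : ∀ e ∈ hfE.toFinset, A e ≤ (if e ∈ U then -(2 * c) else 0) +
        (if e ∈ B then 4 * c else 0) := by
      intro e he
      have heT : e ∈ Touch src tgt lev a b := by simpa using he
      obtain ⟨hJ1, hJ2⟩ := hJ e heT
      by_cases h1 : M (src e)
      · by_cases h2 : M (tgt e)
        · have hBn : e ∉ B := fun h => h ⟨fun _ => h2, fun _ => h1⟩
          by_cases h3 : σ (src e) = σ (tgt e)
          · have hUn : e ∉ U := fun h => h.2.2 h3
            have : A e = 0 := by
              simp only [hA, hρ, h1, h2, if_true, h3]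
              rw [sq_one (hσ.1 (tgt e))]
              ring
            rw [this]; simp [hUn, hBn]
          · have hUe : e ∈ U := ⟨h1, h2, h3⟩
            have h4 : σ (src e) * σ (tgt e) = -1 := by
              rcases hσ.1 (src e) with h5 | h5 <;> rcases hσ.1 (tgt e) with h6 | h6
              · exact absurd (h5.trans h6.symm) h3
              · rw [h5, h6]; norm_num
              · rw [h5, h6]; norm_num
              · exact absurd (h5.trans h6.symm) h3
            have : A e = J e * (-2) := by
              simp only [hA, hρ, h1, h2, if_true, h4]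
              norm_num
            rw [this]; simp only [hUe, hBn, if_true, if_false]; linarith
        · have hBe : e ∈ B := fun h => h2 (h.1 h1)
          have hUn : e ∉ U := fun h => h2 h.2.1
          have h5 : σ (src e) * σ (tgt e) - ρ (src e) * ρ (tgt e) ≤ 2 := by
            rcases hσ.1 (src e) with h5 | h5 <;> rcases hσ.1 (tgt e) with h6 | h6 <;>
            rcases hρ1 (src e) with h7 | h7 <;> rcases hρ1 (tgt e) with h8 | h8 <;>
            rw [h5, h6, h7, h8] <;> norm_num
          have : A e ≤ J e * 2 := mul_le_mul_of_nonneg_left h5 (by linarith)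
          simp only [hBe, hUn, if_true, if_false]; linarith
      · by_cases h2 : M (tgt e)
        · have hBe : e ∈ B := fun h => h1 (h.2 h2)
          have hUn : e ∉ U := fun h => h1 h.1
          have h5 : σ (src e) * σ (tgt e) - ρ (src e) * ρ (tgt e) ≤ 2 := by
            rcases hσ.1 (src e) with h5 | h5 <;> rcases hσ.1 (tgt e) with h6 | h6 <;>
            rcases hρ1 (src e) with h7 | h7 <;> rcases hρ1 (tgt e) with h8 | h8 <;>
            rw [h5, h6, h7, h8] <;> norm_num
          have : A e ≤ J e * 2 := mul_le_mul_of_nonneg_left h5 (by linarith)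
          simp only [hBe, hUn, if_true, if_false]; linarith
        · exact absurd heT (by simp only [Touch, Set.mem_setOf_eq, not_or]; exact ⟨h1, h2⟩)
    have hsum := Finset.sum_le_sum hbound
    rw [Finset.sum_add_distrib, ← Finset.sum_filter, ← Finset.sum_filter, Finset.sum_const,
      Finset.sum_const, nsmul_eq_mul, nsmul_eq_mul] at hsum
    have e1 : (hfE.toFinset.filter (fun e => e ∈ U)).card = U.ncard := by
      rw [← Set.ncard_coe_finset]
      congr 1
      ext e
      simp only [Finset.coe_filter, Set.Finite.mem_toFinset, Set.mem_setOf_eq]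
      exact ⟨fun h => h.2, fun h => ⟨hUT h, h⟩⟩
    have e2 : (hfE.toFinset.filter (fun e => e ∈ B)).card = B.ncard := by
      rw [← Set.ncard_coe_finset]
      congr 1
      ext e
      simp only [Finset.coe_filter, Set.Finite.mem_toFinset, Set.mem_setOf_eq]
      exact ⟨fun h => h.2, fun h => ⟨hBT h, h⟩⟩
    rw [e1, e2] at hsum
    have h6 : (U.ncard : ℝ) * (2 * c) ≤ (B.ncard : ℝ) * (4 * c) := by linarith
    have h7 : (U.ncard : ℝ) ≤ 2 * B.ncard := by
      have : (U.ncard : ℝ) * (2 * c) ≤ (2 * B.ncard) * (2 * c) := by linarith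
      exact le_of_mul_le_mul_right this (by linarith)
    exact_mod_cast h7
  · push Not at hW
    have : U = ∅ := by
      ext e
      simp only [hU, Set.mem_setOf_eq, Set.mem_empty_iff_false, iff_false]
      rintro ⟨h1, h2, h3⟩
      exact h3 ((hW _ h1).trans (hW _ h2).symm)
    rw [this]; simp

/-- A level on which both ground states are constant. -/
theorem common (J : E → ℝ) (σ τ : V → ℝ) (hσ : Ground src tgt J σ) (hτ : Ground src tgt J τ)
    (a b : ℕ) (c : ℝ) (hc : 0 < c)
    (hfV : {x | a < lev x ∧ lev x < b}.Finite) (hfE : (Touch src tgt lev a b).Finite)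
    (hJ : ∀ e ∈ Touch src tgt lev a b, c ≤ J e ∧ J e ≤ 2 * c)
    (hlong : 4 * (Border src tgt lev a b).ncard + a + 1 < b) :
    ∃ l, a < l ∧ l < b ∧ ∀ e, lev (src e) = l → lev (tgt e) = l →
      σ (src e) = σ (tgt e) ∧ τ (src e) = τ (tgt e) := by
  by_contra hcon
  push Not at hcon
  have h1 := few J σ hσ a b c hc hfV hfE hJ
  have h2 := few J τ hτ a b c hc hfV hfE hJ
  set U1 : Set E := {e | (a < lev (src e) ∧ lev (src e) < b) ∧ (a < lev (tgt e) ∧ lev (tgt e) < b) ∧
      σ (src e) ≠ σ (tgt e)} with hU1
  set U2 : Set E := {e | (a < lev (src e) ∧ lev (src e) < b) ∧ (a < lev (tgt e) ∧ lev (tgt e) < b) ∧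
      τ (src e) ≠ τ (tgt e)} with hU2
  have hf1 : U1.Finite := hfE.subset fun e he => Or.inl he.1
  have hf2 : U2.Finite := hfE.subset fun e he => Or.inl he.1
  have hsub : (Set.Ioo a b) ⊆ (fun e => lev (src e)) '' (U1 ∪ U2) := by
    intro l hl
    obtain ⟨e, he1, he2, he3⟩ := hcon l hl.1 hl.2
    refine ⟨e, ?_, he1⟩
    by_cases h : σ (src e) = σ (tgt e)
    · right
      exact ⟨by rw [he1]; exact hl, by rw [he2]; exact hl, he3 h⟩
    · left
      exact ⟨by rw [he1]; exact hl, by rw [he2]; exact hl, h⟩
  have h3 : (Set.Ioo a b).ncard ≤ (U1 ∪ U2).ncard :=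
    (Set.ncard_le_ncard hsub ((hf1.union hf2).image _)).trans (Set.ncard_image_le (hf1.union hf2))
  have h4 := Set.ncard_union_le U1 U2
  have h5 : (Set.Ioo a b).ncard = b - a - 1 := by
    rw [← Nat.card_Ioo, ← Finset.coe_Ioo, Set.ncard_coe_finset]
  omega

/-- Ground states that agree up to sign on far levels agree up to sign everywhere. -/
theorem agree (J : E → ℝ) (σ τ : V → ℝ) (hσ : Ground src tgt J σ) (hτ : Ground src tgt J τ)
    (hlev : ∀ n, ∃ x, lev x = n) (hfin : ∀ n, {x | lev x = n}.Finite)
    (hstep : ∀ e, lev (src e) ≤ lev (tgt e) + 1 ∧ lev (tgt e) ≤ lev (src e) + 1)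
    (hinf : ∀ n, ∃ l, n ≤ l ∧ ∀ x y, lev x = l → lev y = l → σ x * τ x = σ y * τ y) :
    τ = σ ∨ τ = -σ := by
  classical
  have key : ∀ l, (∀ x y, lev x = l → lev y = l → σ x * τ x = σ y * τ y) →
      ∃ η : ℝ, (η = 1 ∨ η = -1) ∧ ∀ x, lev x ≤ l → σ x * τ x = η := by
    intro l hl
    obtain ⟨x0, hx0⟩ := hlev l
    have hpm : ∀ x, σ x * τ x = 1 ∨ σ x * τ x = -1 := by
      intro x
      rcases hσ.1 x with h | h <;> rcases hτ.1 x with h' | h' <;> rw [h, h'] <;> norm_num
    refine ⟨σ x0 * τ x0, hpm x0, ?_⟩
    by_contra hcon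
    push Not at hcon
    obtain ⟨x1, hx1, hx1'⟩ := hcon
    set η := σ x0 * τ x0 with hη
    set W : V → Prop := fun x => lev x ≤ l ∧ σ x * τ x ≠ η with hW
    have hWfin : {x | W x}.Finite := by
      have : {x | W x} ⊆ ⋃ n ∈ Finset.range (l + 1), {x | lev x = n} := by
        intro x hx
        simp only [Set.mem_iUnion, Set.mem_setOf_eq, Finset.mem_range]
        exact ⟨lev x, Nat.lt_succ_of_le hx.1, rfl⟩
      refine Set.Finite.subset ?_ this
      exact Set.Finite.biUnion (Finset.finite_toSet _) fun n _ => hfin n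
    have hWl : ∀ x, W x → lev x < l := by
      intro x hx
      rcases lt_or_eq_of_le hx.1 with h | h
      · exact h
      · exact absurd (hl x x0 h hx0) hx.2
    set fl : (V → ℝ) → V → ℝ := fun s x => if W x then - s x else s x with hfl
    have hfl1 : ∀ s : V → ℝ, (∀ x, s x = 1 ∨ s x = -1) → ∀ x, fl s x = 1 ∨ fl s x = -1 := by
      intro s hs x
      by_cases h : W x
      · simp only [hfl, h, if_true]
        rcases hs x with h' | h' <;> rw [h'] <;> norm_num
      · simp only [hfl, h, if_false]; exact hs x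
    have hx1W : W x1 := ⟨hx1, hx1'⟩
    have hflne : ∀ s : V → ℝ, (∀ x, s x = 1 ∨ s x = -1) → fl s ≠ s := by
      intro s hs h
      have := congrFun h x1
      simp only [hfl, hx1W, if_true] at this
      rcases hs x1 with h' | h' <;> rw [h'] at this <;> norm_num at this
    have hflfin : ∀ s : V → ℝ, {x | fl s x ≠ s x}.Finite := by
      intro s
      refine hWfin.subset ?_
      intro x hx
      by_contra h
      apply hx
      have h' : ¬ W x := h
      simp [hfl, h']
    have p1 := hσ.2 (fl σ) (hfl1 σ hσ.1) (hflne σ hσ.1) (hflfin σ)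
    have p2 := hτ.2 (fl τ) (hfl1 τ hτ.1) (hflne τ hτ.1) (hflfin τ)
    have hterm : ∀ e, J e * (τ (src e) * τ (tgt e) - fl τ (src e) * fl τ (tgt e)) =
        - (J e * (σ (src e) * σ (tgt e) - fl σ (src e) * fl σ (tgt e))) := by
      intro e
      have hη2 : η * η = 1 := sq_one (hpm x0)
      have hone : ∀ x y : V, W x → ¬ W y → lev y ≤ lev x + 1 →
          σ x * σ y = - (τ x * τ y) := by
        intro x y hx hy hxy
        have hly : lev y ≤ l := by
          have := hWl x hx
          omega
        have hy' : σ y * τ y = η := by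
          by_contra h
          exact hy ⟨hly, h⟩
        have hx' : σ x * τ x = -η := by
          rcases hpm x with h | h <;> rcases hpm x0 with h' | h'
          · exact absurd (h.trans h'.symm) hx.2
          · rw [h]; rw [← hη] at h'; rw [h']; norm_num
          · rw [h]; rw [← hη] at h'; rw [h']
          · exact absurd (h.trans h'.symm) hx.2
        have hs : (σ x * σ y) * (τ x * τ y) = -1 := by
          calc (σ x * σ y) * (τ x * τ y) = (σ x * τ x) * (σ y * τ y) := by ring
            _ = -(η * η) := by rw [hx', hy']; ring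
            _ = -1 := by rw [hη2]
        have ht : (τ x * τ y) * (τ x * τ y) = 1 := by
          have := sq_one (hτ.1 x)
          have h2 := sq_one (hτ.1 y)
          calc (τ x * τ y) * (τ x * τ y) = (τ x * τ x) * (τ y * τ y) := by ring
            _ = 1 := by rw [this, h2]; norm_num
        calc σ x * σ y = (σ x * σ y) * ((τ x * τ y) * (τ x * τ y)) := by rw [ht, mul_one]
          _ = ((σ x * σ y) * (τ x * τ y)) * (τ x * τ y) := by ring
          _ = - (τ x * τ y) := by rw [hs]; ring
      by_cases h1 : W (src e)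
      · by_cases h2 : W (tgt e)
        · simp only [hfl, h1, h2, if_true]; ring
        · have := hone (src e) (tgt e) h1 h2 (hstep e).2
          simp only [hfl, h1, h2, if_true, if_false]
          linear_combination (2 * J e) * this
      · by_cases h2 : W (tgt e)
        · have := hone (tgt e) (src e) h2 h1 (hstep e).1
          simp only [hfl, h1, h2, if_true, if_false]
          linear_combination (2 * J e) * this
        · simp only [hfl, h1, h2, if_false]; ring
    rw [finsum_congr hterm, finsum_neg_distrib] at p2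
    linarith
  -- conclusion
  obtain ⟨y0, hy0⟩ := hlev 0
  have hconst : ∀ x, σ x * τ x = σ y0 * τ y0 := by
    intro x
    obtain ⟨l, hl1, hl2⟩ := hinf (lev x)
    obtain ⟨η, -, hη⟩ := key l hl2
    rw [hη x hl1, hη y0 (by rw [hy0]; exact Nat.zero_le _)]
  have hpm : σ y0 * τ y0 = 1 ∨ σ y0 * τ y0 = -1 := by
    rcases hσ.1 y0 with h | h <;> rcases hτ.1 y0 with h' | h' <;> rw [h, h'] <;> norm_num
  rcases hpm with h | h
  · left
    funext x
    have := hconst x
    rw [h] at this
    have h2 := sq_one (hσ.1 x)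
    calc τ x = (σ x * σ x) * τ x := by rw [h2, one_mul]
      _ = σ x * (σ x * τ x) := by ring
      _ = σ x := by rw [this, mul_one]
  · right
    funext x
    have := hconst x
    rw [h] at this
    have h2 := sq_one (hσ.1 x)
    calc τ x = (σ x * σ x) * τ x := by rw [h2, one_mul]
      _ = σ x * (σ x * τ x) := by ring
      _ = (-σ) x := by rw [this]; simp

end det


theorem exists_scale (μ : Measure ℝ) (hpos : μ (Set.Ioi 0) ≠ 0) :
    ∃ c : ℝ, 0 < c ∧ μ (Set.Icc c (2 * c)) ≠ 0 := by
  by_contra hcon
  push Not at hcon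
  apply hpos
  have : Set.Ioi (0:ℝ) ⊆ ⋃ n : ℤ, Set.Icc ((2:ℝ)^n) (2 * 2^n) := by
    intro x hx
    obtain ⟨n, hn1, hn2⟩ := exists_mem_Ico_zpow (Set.mem_Ioi.1 hx) one_lt_two
    refine Set.mem_iUnion.2 ⟨n, hn1, ?_⟩
    rw [zpow_add_one₀ (by norm_num)] at hn2
    linarith
  exact measure_mono_null this (measure_iUnion_null fun n => hcon _ (by positivity))

theorem many (E : Type) (μ : Measure ℝ) [IsProbabilityMeasure μ] (F : ℕ → Set E)
    (hF : ∀ k, (F k).Finite) (hdis : ∀ i j, i ≠ j → Disjoint (F i) (F j)) (S : Set ℝ)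
    (hS : MeasurableSet S) (hpos : μ S ≠ 0)
    (hthin : ∀ p : ℝ, 0 < p → p < 1 → ¬ Summable fun k => p ^ (F k).ncard) :
    ∀ᵐ J ∂(Measure.infinitePi fun _ : E => μ), ∃ᶠ k in atTop, ∀ e ∈ F k, J e ∈ S := by
  classical
  set P := Measure.infinitePi fun _ : E => μ with hP
  set F' : ℕ → Finset E := fun k => (hF k).toFinset with hF'
  set G : ℕ → Set (E → ℝ) := fun k => Set.pi (F' k : Set E) (fun _ => S) with hG
  have hGm : ∀ k, MeasurableSet (G k) := fun k =>
    MeasurableSet.pi (F' k).countable_toSet fun _ _ => hS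
  have hGP : ∀ k, P (G k) = (μ S) ^ (F k).ncard := by
    intro k
    rw [hG, hP]
    simp only
    rw [Measure.infinitePi_pi _ (fun _ _ => hS), Finset.prod_const]
    congr 1
    rw [hF', Set.ncard_eq_toFinset_card (F k) (hF k)]
  have hdis' : ∀ i j, i ≠ j → Disjoint (F' i) (F' j) := by
    intro i j hij
    rw [← Finset.disjoint_coe]
    simpa [hF'] using hdis i j hij
  have hind : iIndepSet G P := by
    rw [iIndepSet_iff_meas_biInter hGm]
    intro s
    have e1 : (⋂ i ∈ s, G i) = Set.pi ((s.biUnion F' : Finset E) : Set E) (fun _ => S) := by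
      ext J
      simp only [hG, Set.mem_iInter, Set.mem_pi, Finset.coe_biUnion, Set.mem_iUnion,
        Finset.mem_coe]
      constructor
      · rintro h e ⟨i, hi, he⟩
        exact h i hi e he
      · intro h i hi e he
        exact h e ⟨i, hi, he⟩
    rw [e1, hP, Measure.infinitePi_pi _ (fun _ _ => hS), Finset.prod_biUnion]
    · refine Finset.prod_congr rfl fun i _ => ?_
      rw [← hP, hGP, Finset.prod_const, hF', Set.ncard_eq_toFinset_card (F i) (hF i)]
    · intro i _ j _ hij
      exact hdis' i j hij
  have hsum : ∑' k, P (G k) = ∞ := by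
    by_contra hne
    have hs := ENNReal.summable_toReal hne
    set q : ℝ := (μ S).toReal with hq
    have hqpos : 0 < q := ENNReal.toReal_pos hpos (measure_ne_top _ _)
    refine hthin (min q (1 / 2)) (lt_min hqpos (by norm_num))
      (lt_of_le_of_lt (min_le_right _ _) (by norm_num)) ?_
    refine Summable.of_nonneg_of_le (fun k => by positivity) (fun k => ?_) hs
    rw [hGP, ENNReal.toReal_pow]
    exact pow_le_pow_left₀ (by positivity) (min_le_left _ _) _
  have hone := measure_limsup_eq_one hGm hind hsum
  have hmem : limsup G atTop ∈ ae P :=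
    (mem_ae_iff_prob_eq_one (MeasurableSet.measurableSet_limsup hGm)).2 hone
  filter_upwards [hmem] with J hJ
  rw [mem_limsup_iff_frequently_mem] at hJ
  refine hJ.mono fun k hk e he => ?_
  exact hk e (by simpa [hF'] using he)


/-- **Uniqueness of the ground state pair on thin graphs.** `V`, `E` are the vertices and edges of
a graph, `lev` arranges the vertices in finite connected levels, edges join vertices of the same or of
consecutive levels. The numbers `b k` cut the levels into blocks that are long compared with the number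
of edges at their two ends, and the numbers of edges of the blocks grow so slowly that the sum of
`p ^ (number of edges of the block)` diverges for every `p > 0`. Then for every law of
the couplings that charges the positive half-line (so for every symmetric law without atoms) almost
surely any two ground states are equal up to a global flip. -/
theorem result (V E : Type) (src tgt : E → V) (lev : V → ℕ)
    (hlev : ∀ n, ∃ x, lev x = n) (hfin : ∀ n, {x | lev x = n}.Finite)
    (hfinE : ∀ n, {e | lev (src e) = n ∨ lev (tgt e) = n}.Finite)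
    (hstep : ∀ e, lev (src e) ≤ lev (tgt e) + 1 ∧ lev (tgt e) ≤ lev (src e) + 1)
    (hconn : ∀ x y, lev x = lev y → Relation.ReflTransGen
      (fun u v => lev u = lev x ∧ lev v = lev x ∧
        ∃ e, (src e = u ∧ tgt e = v) ∨ (src e = v ∧ tgt e = u)) x y)
    (b : ℕ → ℕ)
    (hlong : ∀ k, 4 * (Border src tgt lev (b k) (b (k + 1))).ncard + b k + 1 < b (k + 1))
    (hthin : ∀ p : ℝ, 0 < p → p < 1 →
      ¬ Summable fun k => p ^ (Touch src tgt lev (b k) (b (k + 1))).ncard)
    (μ : Measure ℝ) [IsProbabilityMeasure μ] (hpos : μ (Set.Ioi 0) ≠ 0) :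
    ∀ᵐ J ∂(Measure.infinitePi fun _ : E => μ), ∀ σ τ : V → ℝ,
      Ground src tgt J σ → Ground src tgt J τ → τ = σ ∨ τ = -σ := by
  obtain ⟨c, hc, hcμ⟩ := exists_scale μ hpos
  have hmono : StrictMono b := strictMono_nat_of_lt_succ fun k => by
    have := hlong k
    omega
  have hfV : ∀ k, {x | b k < lev x ∧ lev x < b (k + 1)}.Finite := by
    intro k
    refine Set.Finite.subset (Set.Finite.biUnion (Finset.finite_toSet (Finset.range (b (k + 1))))
      fun n _ => hfin n) ?_
    intro x hx
    simp only [Set.mem_iUnion, Finset.coe_range, Set.mem_Iio]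
    exact ⟨lev x, hx.2, rfl⟩
  have hfE : ∀ k, (Touch src tgt lev (b k) (b (k + 1))).Finite := by
    intro k
    refine Set.Finite.subset (Set.Finite.biUnion (Finset.finite_toSet (Finset.range (b (k + 1))))
      fun n _ => hfinE n) ?_
    intro e he
    simp only [Set.mem_iUnion, Finset.coe_range, Set.mem_Iio]
    rcases he with he | he
    · exact ⟨_, he.2, Or.inl rfl⟩
    · exact ⟨_, he.2, Or.inr rfl⟩
  have hdisj : ∀ i j, i < j → Disjoint (Touch src tgt lev (b i) (b (i + 1)))
      (Touch src tgt lev (b j) (b (j + 1))) := by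
    intro i j hij
    rw [Set.disjoint_left]
    intro e he he'
    have h1 : b (i + 1) ≤ b j := hmono.monotone hij
    have h2 := hstep e
    rcases he with he | he <;> rcases he' with he' | he' <;> omega
  have hdis : ∀ i j, i ≠ j → Disjoint (Touch src tgt lev (b i) (b (i + 1)))
      (Touch src tgt lev (b j) (b (j + 1))) := by
    intro i j hij
    rcases lt_or_gt_of_ne hij with h | h
    · exact hdisj i j h
    · exact (hdisj j i h).symm
  have hmany := many E μ (fun k => Touch src tgt lev (b k) (b (k + 1))) hfE hdis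
    (Set.Icc c (2 * c)) measurableSet_Icc hcμ hthin
  filter_upwards [hmany] with J hJ σ τ hσ hτ
  refine agree J σ τ hσ hτ hlev hfin hstep ?_
  intro n
  obtain ⟨k, hk, hk2⟩ := (frequently_atTop.1 hJ) n
  obtain ⟨l, hl1, hl2, hl3⟩ := common J σ τ hσ hτ (b k) (b (k + 1)) c hc (hfV k) (hfE k)
    (fun e he => ⟨(hk2 e he).1, (hk2 e he).2⟩) (hlong k)
  refine ⟨l, ?_, ?_⟩
  · have : k ≤ b k := hmono.le_apply
    omega
  · intro x y hx hy
    have hr := hconn x y (hx.trans hy.symm)
    have hkey : ∀ z, Relation.ReflTransGen (fun u v => lev u = lev x ∧ lev v = lev x ∧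
        ∃ e, (src e = u ∧ tgt e = v) ∨ (src e = v ∧ tgt e = u)) x z →
        σ x = σ z ∧ τ x = τ z := by
      intro z hz
      induction hz with
      | refl => exact ⟨rfl, rfl⟩
      | tail _ hstep' ih =>
        obtain ⟨hu, hv, e, he⟩ := hstep'
        rcases he with ⟨h1, h2⟩ | ⟨h1, h2⟩
        · have := hl3 e (by rw [h1, hu, hx]) (by rw [h2, hv, hx])
          rw [h1, h2] at this
          exact ⟨ih.1.trans this.1, ih.2.trans this.2⟩
        · have := hl3 e (by rw [h1, hv, hx]) (by rw [h2, hu, hx])
          rw [h1, h2] at this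
          exact ⟨ih.1.trans this.1.symm, ih.2.trans this.2.symm⟩
    have := hkey y hr
    rw [this.1, this.2]

end Pool.Agent.Results.MP_37ff18_mp.ThinGraphs
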